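import Pool.Agent.Q61.JS.Stm

/-!
# Project JS, job JS-1: measurability
-/

namespace Pool.Agent.Q225.JS

open MeasureTheory Filter Topology Set Metric Pool.Agent.Q61.JS
open scoped ENNReal NNReal

theorem st_meas {N d : ℕ} (a b : E d) (ν : E N) :
    Measurable (fun z : E N × E N => st a b ν z.1 z.2) := by
  unfold st
  refine Measurable.ite ?_ measurable_const measurable_const
  exact (isOpen_lt continuous_const
    ((continuous_snd.sub continuous_fst).inner continuous_const)).measurableSet

theorem F_meas {N d : ℕ} {v : E N → E d} (hv : StronglyMeasurable v) (a b : E d) (ν : E N)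
    (r : ℝ) : Measurable (fun x => ∫⁻ y in ball x r, ‖v y - st a b ν x y‖ₑ) := by
  have h1 : ∀ x, ∫⁻ y in ball x r, ‖v y - st a b ν x y‖ₑ
      = ∫⁻ y, {z : E N × E N | dist z.2 z.1 < r}.indicator
        (fun z => ‖v z.2 - st a b ν z.1 z.2‖ₑ) (x, y) := by
    intro x
    rw [← lintegral_indicator measurableSet_ball]
    refine lintegral_congr fun y => ?_
    by_cases hy : dist y x < r
    · rw [indicator_of_mem (show y ∈ ball x r from hy),
        indicator_of_mem (show (x, y) ∈ {z : E N × E N | dist z.2 z.1 < r} from hy)]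
    · rw [indicator_of_notMem (show y ∉ ball x r from hy),
        indicator_of_notMem (show (x, y) ∉ {z : E N × E N | dist z.2 z.1 < r} from hy)]
  simp only [h1]
  refine Measurable.lintegral_prod_right' (f := {z : E N × E N | dist z.2 z.1 < r}.indicator
        (fun z => ‖v z.2 - st a b ν z.1 z.2‖ₑ)) ?_
  refine Measurable.indicator ?_ ?_
  · exact ((hv.measurable.comp measurable_snd).sub (st_meas a b ν)).enorm
  · exact (isOpen_lt (continuous_snd.dist continuous_fst) continuous_const).measurableSet

/-- JS-1. -/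
theorem meas : S_MEAS := by
  intro N d u a b ν m δ hu
  have hv := hu.stronglyMeasurable_mk
  have huv := hu.ae_eq_mk
  have h0 : Es u a b ν m δ = ⋂ k : ℕ, {x | m ≤ k →
      ∫⁻ y in ball x (1 / ((k : ℝ) + 1)), ‖hu.mk u y - st a b ν x y‖ₑ ≤
        ENNReal.ofReal (δ * ‖a - b‖ * (1 / ((k : ℝ) + 1)) ^ N)} := by
    ext x
    simp only [Es, mem_ofPred_eq, mem_iInter]
    refine forall_congr' fun k => imp_congr_right fun _ => ?_
    have h1 : ∫⁻ y in ball x (1 / ((k : ℝ) + 1)), ‖u y - st a b ν x y‖ₑ
        = ∫⁻ y in ball x (1 / ((k : ℝ) + 1)), ‖hu.mk u y - st a b ν x y‖ₑ := by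
      refine lintegral_congr_ae ?_
      filter_upwards [ae_restrict_of_ae huv] with y hy
      rw [hy]
    rw [h1]
  rw [h0]
  refine MeasurableSet.iInter fun k => ?_
  by_cases hk : m ≤ k
  · simp only [hk, true_imp_iff]
    exact measurableSet_le (F_meas hv a b ν _) measurable_const
  · simp only [hk, false_imp_iff, ofPred_true]
    exact MeasurableSet.univ

end Pool.Agent.Q225.JS
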